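import Pool.Agent.Lib.MP_8fac41_lc.FR.B.Main

/-!
# The existence of fresh subsets depends on the normal ultrafilter

Let `δ < κ` be measurable cardinals, and let there be two normal ultrafilters on `δ`. Then there is a model of
ZFC with a measurable cardinal `δ`, two normal ultrafilters `U₀`, `U₁` on `δ` and a limit ordinal `λ` such that no
unbounded subset of `λ` is fresh over `Ult(V, U₀)`, while some unbounded subset of `λ` is fresh over `Ult(V, U₁)`.

`Fs.Config E` (`FR/E/Stmt.lean`, self-contained) is this statement, read in the structure `(M, E)`; it only
quantifies over elements of `M`, and `φ` is the corresponding sentence of the language of set theory.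

The model is the two-valued quotient of the Boolean-valued model over the regular open algebra of the following
poset (`E δ κ` in `FR/P/Defs.lean`); in it `λ = κ`. Label the two given normal ultrafilters on `δ` as `U₀`, `U₁` in
such a way that `U₁` does not belong to the ultrapower by `U₀` (`U/Mit1`, `U/Mit2`). A condition is a
system of orders `<_ξ` (`ξ < δ`) on a subset `a` of `κ` with a largest element and at most `2^δ` elements, such that
`α <_ξ β` implies `α < β`, the `<_ξ`-predecessors of every element are linearly ordered by `<_ξ`, and for
`α < β` in `a` the set of the `ξ` with `α <_ξ β` belongs to `U₁`. The poset is closed enough to add no new sequences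
of length `δ` (`P/Dist`), so `U₀`, `U₁` are still normal.
* (`B/S1*`, `T/NoTh`) The ordinals below `κ` with the relation obtained from the `<_ξ` by the ultrapower by `U₁` have
an unbounded branch whose initial segments belong to `Ult(V, U₁)`. By genericity the trees `<_ξ` have no
coherent system of cofinal branches, so the branch does not belong to `Ult(V, U₁)`: it is fresh.
* (`B/S0*`, `T/Goal`) A subset of `κ` all of whose initial segments are in `Ult(V, U₀)` is given by sequences
`(x_α(ξ) : ξ < δ)` (`α < κ`), which are coherent modulo `U₀`. By a reflection argument with a normal ultrafilter on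
`κ`, two conditions which agree below `ν < κ` and, for `ξ` outside of a set not in `U₁`, also at `ν`, can be
extended to one condition; and since `U₁` is not in the ultrapower by `U₀` the set of the `ξ` at which the coherence
can be changed is small for `U₀`. So for `U₀`-many `ξ` the sets `x_α(ξ)` are coherent along a thread, the
sequences can be glued, and the subset belongs to `Ult(V, U₀)`.
* (`B/Elim`, `B/Intro`) elements of the ultrapower in the Boolean-valued model and sequences of names.
* (`E`) the value of the sentence `φ` is computed.
-/

universe u

namespace Pool.Agent.Results.MP_8fac41_lc.FreshDependsOnU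

open Pool.Agent.Lib.MP_8fac41_lc.FR Pool.Agent.Lib.MP_4d8715_gt.KR Pool.MP_8fac41_lc.FR Cardinal

/-- There is a sentence `φ` of the language of set theory which says that there are a measurable cardinal `δ`, two
normal ultrafilters `U₀`, `U₁` on `δ` and a limit ordinal `λ` such that no unbounded subset of `λ` is fresh over
`Ult(V, U₀)`, but some unbounded subset of `λ` is fresh over `Ult(V, U₁)`; and if there are cardinals `δ < κ` with two
different normal ultrafilters on `δ` and with `κ` measurable, then there is a model of ZFC in which `φ` holds. -/
theorem result : ∃ φ : Fml 0,
    (∀ (M : Type (u + 1)) (E : M → M → Prop), Fml.Sat E φ ![] ↔ Fs.Config E) ∧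
    ((∃ δ κ : Cardinal.{u}, ℵ₀ < δ ∧ δ < κ ∧
        (∃ U U' : Ultrafilter δ.ord.ToType, IsNormalUlt δ U ∧ IsNormalUlt δ U' ∧ U ≠ U') ∧ IsMeas κ) →
      ∃ (M : Type (u + 1)) (E : M → M → Prop), (∀ ψ ∈ Fml.ZFC, Fml.Sat E ψ ![]) ∧ Fml.Sat E φ ![]) :=
  main

end Pool.Agent.Results.MP_8fac41_lc.FreshDependsOnU
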